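import Mathlib

/-!
# MP_478959_ag: the bundle `E_H ⊗ E_H` on a smooth plane curve

`C = {F = 0} ⊆ ℙ²` a plane curve, `H` the hyperplane bundle, `D_H` the kernel of the evaluation map
`H⁰(H) ⊗ 𝒪 → H`, `E_H` its dual.  Everything is described inside a field `K` containing the
homogeneous coordinate ring `ℂ[X₀, X₁, X₂]/(F)`.
-/

set_option autoImplicit false

namespace Pool.Agent.Lib.MP_478959_ag

open MvPolynomial

/-- the polynomial ring `ℂ[X₀, X₁, X₂]` -/
abbrev R : Type := MvPolynomial (Fin 3) ℂ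

/-- `F` is the equation of a smooth irreducible plane curve of degree `δ` -/
structure IsSmoothCurve (F : R) (δ : ℕ) : Prop where
  hom : F.IsHomogeneous δ
  irr : Irreducible F
  smooth : ∀ p : Fin 3 → ℂ, p ≠ 0 → eval p F = 0 → ∃ i, eval p (pderiv i F) ≠ 0

variable (F : R) (K : Type) [Field K] [Algebra ℂ K] [Algebra R K] [IsScalarTower ℂ R K]

/-- `K` contains the homogeneous coordinate ring `ℂ[X₀, X₁, X₂]/(F)` of the curve -/
def IsModel : Prop := ∀ a : R, algebraMap R K a = 0 ↔ F ∣ a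

/-- `f` is a quotient of homogeneous elements of the same degree -/
def InFld (f : K) : Prop := ∃ (n : ℕ) (a b : R), a.IsHomogeneous n ∧ b.IsHomogeneous n ∧
    algebraMap R K b ≠ 0 ∧ f * algebraMap R K b = algebraMap R K a

theorem inFld_mul {f g : K} (hf : InFld K f) (hg : InFld K g) : InFld K (f * g) := by
  obtain ⟨n, a, b, ha, hb, hb0, h⟩ := hf
  obtain ⟨n', a', b', ha', hb', hb0', h'⟩ := hg
  refine ⟨n + n', a * a', b * b', ha.mul ha', hb.mul hb', ?_, ?_⟩
  · rw [map_mul]; exact mul_ne_zero hb0 hb0'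
  · rw [map_mul, map_mul, ← h, ← h']; ring

theorem inFld_add {f g : K} (hf : InFld K f) (hg : InFld K g) : InFld K (f + g) := by
  obtain ⟨n, a, b, ha, hb, hb0, h⟩ := hf
  obtain ⟨n', a', b', ha', hb', hb0', h'⟩ := hg
  refine ⟨n + n', a * b' + b * a', b * b', (ha.mul hb').add (hb.mul ha'), hb.mul hb', ?_, ?_⟩
  · rw [map_mul]; exact mul_ne_zero hb0 hb0'
  · rw [map_mul, map_add, map_mul, map_mul, ← h, ← h']; ring

theorem inFld_const (c : ℂ) : InFld K (algebraMap ℂ K c) := by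
  refine ⟨0, C c, 1, isHomogeneous_C _ _, isHomogeneous_one _ _, by simp, ?_⟩
  rw [map_one, mul_one, IsScalarTower.algebraMap_apply ℂ R K]
  rfl

theorem inFld_inv (f : K) (hf : InFld K f) : InFld K f⁻¹ := by
  obtain ⟨n, a, b, ha, hb, hb0, h⟩ := hf
  by_cases hf : f = 0
  · refine ⟨0, 0, 1, isHomogeneous_zero _ _ _, isHomogeneous_one _ _, by simp, ?_⟩
    simp [hf]
  · refine ⟨n, b, a, hb, ha, ?_, ?_⟩
    · rw [← h]; exact mul_ne_zero hf hb0
    · rw [← h, ← mul_assoc, inv_mul_cancel₀ hf, one_mul]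

/-- the function field of the curve: quotients of homogeneous elements of the same degree -/
def fld : IntermediateField ℂ K where
  carrier := {f | InFld K f}
  mul_mem' := inFld_mul K
  add_mem' := inFld_add K
  algebraMap_mem' := inFld_const K
  inv_mem' := inFld_inv K

/-- `f` is regular at the point `p` as a section of `𝒪(k)`: `f = a/b` with `b(p) ≠ 0`,
`deg a = deg b + k` -/
def RegAt (k : ℕ) (p : Fin 3 → ℂ) (f : K) : Prop :=
  ∃ (n : ℕ) (a b : R), a.IsHomogeneous (n + k) ∧ b.IsHomogeneous n ∧ eval p b ≠ 0 ∧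
    f * algebraMap R K b = algebraMap R K a

/-- `f` is a global section of `𝒪_C(k)` -/
def IsSec (k : ℕ) (f : K) : Prop :=
  ∀ p : Fin 3 → ℂ, p ≠ 0 → eval p F = 0 → RegAt K k p f

/-- `∑ u_i X_i = 0` -/
def IsD (u : Fin 3 → fld K) : Prop := ∑ i, (u i : K) * algebraMap R K (X i) = 0

theorem isD_add {u v : Fin 3 → fld K} (hu : IsD K u) (hv : IsD K v) : IsD K (u + v) := by
  simp only [IsD] at hu hv ⊢
  simp only [Pi.add_apply, AddMemClass.coe_add, add_mul, Finset.sum_add_distrib, hu, hv, add_zero]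

theorem isD_zero : IsD K (0 : Fin 3 → fld K) := by simp [IsD]

theorem isD_smul (c : fld K) {u : Fin 3 → fld K} (hu : IsD K u) : IsD K (c • u) := by
  simp only [IsD] at hu ⊢
  simp only [Pi.smul_apply, smul_eq_mul, MulMemClass.coe_mul, mul_assoc]
  rw [← Finset.mul_sum, hu, mul_zero]

/-- the generic fibre of `D_H = ker(H⁰(H) ⊗ 𝒪 → H)`: vectors `u` with `∑ u_i X_i = 0` -/
def DK : Submodule (fld K) (Fin 3 → fld K) where
  carrier := {u | IsD K u}
  add_mem' := isD_add K
  zero_mem' := isD_zero K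
  smul_mem' := fun c _ hu => isD_smul K c hu

/-- `u` is a section of `D_H` near the point `p` -/
def DAt (p : Fin 3 → ℂ) (u : DK K) : Prop := ∀ i, RegAt K 0 p ((u : Fin 3 → fld K) i : K)

/-- `β` maps `D_H × D_H` to `𝒪_C`, at every point of the curve -/
def IsGlob (β : DK K →ₗ[fld K] DK K →ₗ[fld K] fld K) : Prop :=
  ∀ p : Fin 3 → ℂ, p ≠ 0 → eval p F = 0 → ∀ u v : DK K, DAt K p u → DAt K p v →
    RegAt K 0 p (β u v : K)

theorem isGlob_add {β γ : DK K →ₗ[fld K] DK K →ₗ[fld K] fld K} (hβ : IsGlob F K β)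
    (hγ : IsGlob F K γ) : IsGlob F K (β + γ) := by
  intro p hp hF u v hu hv
  obtain ⟨n, a, b, ha, hb, hb0, h⟩ := hβ p hp hF u v hu hv
  obtain ⟨n', a', b', ha', hb', hb0', h'⟩ := hγ p hp hF u v hu hv
  refine ⟨n + n', a * b' + b * a', b * b', ?_, hb.mul hb', ?_, ?_⟩
  · exact (by simpa using ha.mul hb' : (a * b').IsHomogeneous (n + n' + 0)).add
      (by simpa using hb.mul ha')
  · rw [map_mul]; exact mul_ne_zero hb0 hb0'
  · simp only [LinearMap.add_apply, AddMemClass.coe_add]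
    rw [map_mul, map_add, map_mul, map_mul, ← h, ← h']; ring

theorem isGlob_zero : IsGlob F K (0 : DK K →ₗ[fld K] DK K →ₗ[fld K] fld K) := by
  intro p hp hF u v hu hv
  exact ⟨0, 0, 1, isHomogeneous_zero _ _ _, isHomogeneous_one _ _, by simp, by simp⟩

theorem isGlob_smul (c : ℂ) {β : DK K →ₗ[fld K] DK K →ₗ[fld K] fld K} (hβ : IsGlob F K β) :
    IsGlob F K (c • β) := by
  intro p hp hF u v hu hv
  obtain ⟨n, a, b, ha, hb, hb0, h⟩ := hβ p hp hF u v hu hv
  refine ⟨n, C c * a, b, by simpa using (isHomogeneous_C (Fin 3) c).mul ha, hb, hb0, ?_⟩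
  have h1 : (((c • β) u v : fld K) : K) = algebraMap ℂ K c * (β u v : K) := by
    rw [LinearMap.smul_apply, LinearMap.smul_apply]
    rw [Algebra.smul_def]
    rfl
  rw [h1, mul_assoc, h, map_mul, IsScalarTower.algebraMap_apply ℂ R K]
  rfl

/-- `H⁰(C, E_H ⊗ E_H)`, `E_H = D_H^*`: the bilinear forms `D_H × D_H → 𝒪_C` -/
def H0EE : Submodule ℂ (DK K →ₗ[fld K] DK K →ₗ[fld K] fld K) where
  carrier := {β | IsGlob F K β}
  add_mem' := isGlob_add F K
  zero_mem' := isGlob_zero F K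
  smul_mem' := fun c _ hβ => isGlob_smul F K c hβ

end Pool.Agent.Lib.MP_478959_ag
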