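import Pool.Agent.Lib.MP_478959_ag.Defs

/-!
# MP_478959_ag: global sections of `E_H ⊗ E_H`, unbundled
-/

set_option autoImplicit false

namespace Pool.Agent.Lib.MP_478959_ag

open MvPolynomial

variable (F : R) (K : Type) [Field K] [Algebra ℂ K] [Algebra R K]

/-- `u` is in the generic fibre of `D_H = ker(H⁰(H) ⊗ 𝒪 → H)`: its coordinates are in the function
field of the curve and `∑ u_i X_i = 0` -/
def GenD (u : Fin 3 → K) : Prop :=
  (∀ i, ∃ (n : ℕ) (a b : R), a.IsHomogeneous n ∧ b.IsHomogeneous n ∧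
    algebraMap R K b ≠ 0 ∧ u i * algebraMap R K b = algebraMap R K a) ∧
  ∑ i, u i * algebraMap R K (X i) = 0

/-- `β` is a global section of `D_H^* ⊗ D_H^* = E_H ⊗ E_H`: a bilinear form on the generic fibre of
`D_H` (extended by `0` to vectors which are not in it) over the function field, which at every point
`p` of the curve maps `D_H × D_H` to `𝒪_C` -/
structure IsSection (β : (Fin 3 → K) → (Fin 3 → K) → K) : Prop where
  zero : ∀ u v, ¬ (GenD K u ∧ GenD K v) → β u v = 0
  add_left : ∀ u u' v, GenD K u → GenD K u' → GenD K v → β (u + u') v = β u v + β u' v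
  add_right : ∀ u v v', GenD K u → GenD K v → GenD K v' → β u (v + v') = β u v + β u v'
  smul : ∀ (f g : K) (u v : Fin 3 → K), InFld K f → InFld K g → GenD K u → GenD K v →
    β (f • u) (g • v) = f * g * β u v
  val : ∀ u v, InFld K (β u v)
  reg : ∀ p : Fin 3 → ℂ, p ≠ 0 → eval p F = 0 → ∀ u v, GenD K u → GenD K v →
    (∀ i, RegAt K 0 p (u i)) → (∀ i, RegAt K 0 p (v i)) → RegAt K 0 p (β u v)

variable {F K}

theorem regAt_add {p : Fin 3 → ℂ} {f g : K} (hf : RegAt K 0 p f) (hg : RegAt K 0 p g) :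
    RegAt K 0 p (f + g) := by
  obtain ⟨n, a, b, ha, hb, hb0, h⟩ := hf
  obtain ⟨n', a', b', ha', hb', hb0', h'⟩ := hg
  refine ⟨n + n', a * b' + b * a', b * b', ?_, hb.mul hb', ?_, ?_⟩
  · exact (by simpa using ha.mul hb' : (a * b').IsHomogeneous (n + n' + 0)).add
      (by simpa using hb.mul ha')
  · rw [map_mul]; exact mul_ne_zero hb0 hb0'
  · rw [map_mul, map_add, map_mul, map_mul, ← h, ← h']; ring

theorem regAt_zero {p : Fin 3 → ℂ} : RegAt K 0 p (0 : K) :=
  ⟨0, 0, 1, isHomogeneous_zero _ _ _, isHomogeneous_one _ _, by simp, by simp⟩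

theorem inFld_zero' : InFld K (0 : K) :=
  ⟨0, 0, 1, isHomogeneous_zero _ _ _, isHomogeneous_one _ _, by simp, by simp⟩

theorem isSection_add {β γ : (Fin 3 → K) → (Fin 3 → K) → K} (hβ : IsSection F K β)
    (hγ : IsSection F K γ) : IsSection F K (β + γ) where
  zero u v h := by simp [hβ.zero u v h, hγ.zero u v h]
  add_left u u' v h h' h'' := by
    simp only [Pi.add_apply, hβ.add_left u u' v h h' h'', hγ.add_left u u' v h h' h'']; ring
  add_right u v v' h h' h'' := by
    simp only [Pi.add_apply, hβ.add_right u v v' h h' h'', hγ.add_right u v v' h h' h'']; ring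
  smul f g u v hf hg hu hv := by
    simp only [Pi.add_apply, hβ.smul f g u v hf hg hu hv, hγ.smul f g u v hf hg hu hv]; ring
  val u v := by
    obtain ⟨n, a, b, ha, hb, hb0, h⟩ := hβ.val u v
    obtain ⟨n', a', b', ha', hb', hb0', h'⟩ := hγ.val u v
    refine ⟨n + n', a * b' + b * a', b * b', (ha.mul hb').add (hb.mul ha'), hb.mul hb', ?_, ?_⟩
    · rw [map_mul]; exact mul_ne_zero hb0 hb0'
    · rw [map_mul, map_add, map_mul, map_mul, ← h, ← h', Pi.add_apply, Pi.add_apply]; ring
  reg p hp hF u v hu hv hu' hv' :=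
    regAt_add (hβ.reg p hp hF u v hu hv hu' hv') (hγ.reg p hp hF u v hu hv hu' hv')

theorem isSection_zero : IsSection F K (0 : (Fin 3 → K) → (Fin 3 → K) → K) where
  zero u v h := rfl
  add_left u u' v h h' h'' := by simp
  add_right u v v' h h' h'' := by simp
  smul f g u v hf hg hu hv := by simp
  val u v := inFld_zero'
  reg p hp hF u v hu hv hu' hv' := regAt_zero

theorem isSection_smul [IsScalarTower ℂ R K] (c : ℂ) {β : (Fin 3 → K) → (Fin 3 → K) → K}
    (hβ : IsSection F K β) : IsSection F K (c • β) where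
  zero u v h := by simp [hβ.zero u v h]
  add_left u u' v h h' h'' := by
    simp only [Pi.smul_apply, hβ.add_left u u' v h h' h'', smul_add]
  add_right u v v' h h' h'' := by
    simp only [Pi.smul_apply, hβ.add_right u v v' h h' h'', smul_add]
  smul f g u v hf hg hu hv := by
    show c • β (f • u) (g • v) = f * g * (c • β u v)
    rw [hβ.smul f g u v hf hg hu hv, Algebra.smul_def, Algebra.smul_def]; ring
  val u v := by
    have h := inFld_mul K (inFld_const K c) (hβ.val u v)
    simpa [Pi.smul_apply, Algebra.smul_def] using h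
  reg p hp hF u v hu hv hu' hv' := by
    obtain ⟨n, a, b, ha, hb, hb0, h⟩ := hβ.reg p hp hF u v hu hv hu' hv'
    refine ⟨n, C c * a, b, by simpa using (isHomogeneous_C (Fin 3) c).mul ha, hb, hb0, ?_⟩
    rw [Pi.smul_apply, Pi.smul_apply, Algebra.smul_def, mul_assoc, h, map_mul,
      IsScalarTower.algebraMap_apply ℂ R K]
    rfl

variable (F K)

/-- `H⁰(C, E_H ⊗ E_H)` -/
def Sections [IsScalarTower ℂ R K] : Submodule ℂ ((Fin 3 → K) → (Fin 3 → K) → K) where
  carrier := {β | IsSection F K β}
  add_mem' := isSection_add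
  zero_mem' := isSection_zero
  smul_mem' := fun c _ hβ => isSection_smul c hβ

end Pool.Agent.Lib.MP_478959_ag
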