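import Pool.Agent.Lib.MP_478959_ag.Spec

/-!
# MP_478959_ag: module INJ
-/

set_option autoImplicit false
set_option linter.unusedSectionVars false

namespace Pool.Agent.Lib.MP_478959_ag

open MvPolynomial

namespace InjM

lemma eq_zero_of_dvd {F a : R} {δ n : ℕ} (hF : F.IsHomogeneous δ) (hF0 : F ≠ 0)
    (ha : a.IsHomogeneous n) (hn : n < δ) (h : F ∣ a) : a = 0 := by
  by_contra ha0
  obtain ⟨g, rfl⟩ := h
  have hg : g ≠ 0 := right_ne_zero_of_mul ha0
  have h1 := totalDegree_mul_of_isDomain hF0 hg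
  rw [ha.totalDegree ha0, hF.totalDegree hF0] at h1
  omega

variable {F : R} {K : Type} [Field K] [Algebra ℂ K] [Algebra R K] [IsScalarTower ℂ R K]

lemma algC (c : ℂ) : algebraMap R K (C c) = algebraMap ℂ K c := by
  rw [IsScalarTower.algebraMap_apply ℂ R K]
  rfl

lemma reg_add {k : ℕ} {p : Fin 3 → ℂ} {f g : K} (hf : RegAt K k p f) (hg : RegAt K k p g) :
    RegAt K k p (f + g) := by
  obtain ⟨n, a, b, ha, hb, hb0, h⟩ := hf
  obtain ⟨n', a', b', ha', hb', hb0', h'⟩ := hg
  refine ⟨n + n', a * b' + b * a', b * b', ?_, hb.mul hb', ?_, ?_⟩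
  · have h1 := ha.mul hb'
    have h2 := hb.mul ha'
    rw [show n + k + n' = n + n' + k by ring] at h1
    rw [show n + (n' + k) = n + n' + k by ring] at h2
    exact h1.add h2
  · rw [map_mul]; exact mul_ne_zero hb0 hb0'
  · rw [map_mul, map_add, map_mul, map_mul, ← h, ← h']; ring

lemma reg_mul {k k' : ℕ} {p : Fin 3 → ℂ} {f g : K} (hf : RegAt K k p f) (hg : RegAt K k' p g) :
    RegAt K (k + k') p (f * g) := by
  obtain ⟨n, a, b, ha, hb, hb0, h⟩ := hf
  obtain ⟨n', a', b', ha', hb', hb0', h'⟩ := hg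
  refine ⟨n + n', a * a', b * b', ?_, hb.mul hb', ?_, ?_⟩
  · have h1 := ha.mul ha'
    rwa [show n + k + (n' + k') = n + n' + (k + k') by ring] at h1
  · rw [map_mul]; exact mul_ne_zero hb0 hb0'
  · rw [map_mul, map_mul, ← h, ← h']; ring

lemma reg_pol {k : ℕ} {p : Fin 3 → ℂ} {a : R} (ha : a.IsHomogeneous k) :
    RegAt K k p (algebraMap R K a) :=
  ⟨0, a, 1, by simpa using ha, isHomogeneous_one _ _, by simp, by simp⟩

lemma reg_const {p : Fin 3 → ℂ} (c : ℂ) : RegAt K 0 p (algebraMap ℂ K c) := by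
  rw [← algC]
  exact reg_pol (isHomogeneous_C _ _)

lemma reg_zero {k : ℕ} {p : Fin 3 → ℂ} : RegAt K k p (0 : K) := by
  have := reg_pol (K := K) (p := p) (isHomogeneous_zero (Fin 3) ℂ k)
  rwa [map_zero] at this

lemma reg_sum {k : ℕ} {p : Fin 3 → ℂ} {ι : Type} (s : Finset ι) {f : ι → K}
    (hf : ∀ i ∈ s, RegAt K k p (f i)) : RegAt K k p (∑ i ∈ s, f i) := by
  classical
  induction s using Finset.induction_on with
  | empty => simpa using reg_zero
  | insert a s ha ih =>
    rw [Finset.sum_insert ha]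
    exact reg_add (hf a (Finset.mem_insert_self _ _))
      (ih fun i hi => hf i (Finset.mem_insert_of_mem hi))

/-- the bilinear form of a constant matrix -/
noncomputable def fm (K : Type) [Field K] [Algebra ℂ K] [Algebra R K] [IsScalarTower ℂ R K]
    (M : Matrix (Fin 3) (Fin 3) ℂ) : DK K →ₗ[fld K] DK K →ₗ[fld K] fld K :=
  LinearMap.mk₂ (fld K)
    (fun u v => ∑ i, ∑ j, (u : Fin 3 → fld K) i * algebraMap ℂ (fld K) (M i j) *
      (v : Fin 3 → fld K) j)
    (by
      intro u u' v
      simp only [Submodule.coe_add, Pi.add_apply, add_mul, Finset.sum_add_distrib])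
    (by
      intro c u v
      simp only [Submodule.coe_smul, Pi.smul_apply, smul_eq_mul, mul_assoc, Finset.mul_sum])
    (by
      intro u v v'
      simp only [Submodule.coe_add, Pi.add_apply, mul_add, Finset.sum_add_distrib])
    (by
      intro c u v
      simp only [Submodule.coe_smul, Pi.smul_apply, smul_eq_mul, Finset.mul_sum]
      refine Finset.sum_congr rfl fun i _ => Finset.sum_congr rfl fun j _ => ?_
      ring)

lemma isForm_fm (M : Matrix (Fin 3) (Fin 3) ℂ) : IsForm K M (fm K M) := by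
  intro u v
  have h : (fm K M u v : fld K) = ∑ i, ∑ j, (u : Fin 3 → fld K) i *
      algebraMap ℂ (fld K) (M i j) * (v : Fin 3 → fld K) j := rfl
  rw [h]
  push_cast
  rfl

lemma isForm_mem {M : Matrix (Fin 3) (Fin 3) ℂ} {β : DK K →ₗ[fld K] DK K →ₗ[fld K] fld K}
    (h : IsForm K M β) : β ∈ H0EE F K := by
  intro p hp hF u v hu hv
  rw [h u v]
  refine reg_sum _ fun i _ => reg_sum _ fun j _ => ?_
  exact reg_mul (reg_mul (hu i) (reg_const _)) (hv j)

lemma kz_hom (i j : Fin 3) : (kz i j).IsHomogeneous 1 := by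
  have hX : ∀ l : Fin 3, (X l : R).IsHomogeneous 1 := fun l => isHomogeneous_X ℂ l
  have h0 : (0 : R).IsHomogeneous 1 := isHomogeneous_zero _ _ _
  fin_cases i <;> fin_cases j <;> simp only [kz] <;> simp [hX, h0, IsHomogeneous.neg]

lemma kz_row (i : Fin 3) : ∑ j, kz i j * X j = 0 := by
  rw [Fin.sum_univ_three]
  fin_cases i <;> simp [kz] <;> ring

lemma kz_col (j : Fin 3) : ∑ i, X i * kz i j = 0 := by
  rw [Fin.sum_univ_three]
  fin_cases j <;> simp [kz] <;> ring

/-- the elements `(row i of kz)/X_l` -/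
noncomputable def kap (l : Fin 3) (hl : algebraMap R K (X l) ≠ 0) (i : Fin 3) : DK K :=
  ⟨fun j => ⟨algebraMap R K (kz i j) / algebraMap R K (X l),
    ⟨1, kz i j, X l, kz_hom i j, isHomogeneous_X ℂ l, hl, div_mul_cancel₀ _ hl⟩⟩, by
    show ∑ j, (algebraMap R K (kz i j) / algebraMap R K (X l)) * algebraMap R K (X j) = 0
    have h := congrArg (algebraMap R K) (kz_row i)
    rw [map_sum, map_zero] at h
    simp only [map_mul] at h
    simp only [div_mul_eq_mul_div]
    rw [← Finset.sum_div, h, zero_div]⟩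

lemma kap_apply (l : Fin 3) (hl : algebraMap R K (X l) ≠ 0) (i j : Fin 3) :
    (((kap l hl i : DK K) : Fin 3 → fld K) j : K) =
      algebraMap R K (kz i j) / algebraMap R K (X l) := rfl

lemma X_ne {δ : ℕ} (hδ : 2 ≤ δ) (hF : F.IsHomogeneous δ) (hF0 : F ≠ 0) (hm : IsModel F K)
    (l : Fin 3) : algebraMap R K (X l) ≠ 0 := by
  intro h
  have h1 := (hm _).mp h
  exact X_ne_zero l (eq_zero_of_dvd hF hF0 (isHomogeneous_X ℂ l) (by omega) h1)

end InjM

open InjM in
theorem specINJ : SpecINJ := by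
  intro F δ hδ hF hirr K _ _ _ _ hm
  have hF0 : F ≠ 0 := hirr.ne_zero
  refine ⟨fun M => ⟨fm K M, isForm_mem (isForm_fm M), isForm_fm M⟩, fun M hM => ?_⟩
  have hx := X_ne (by omega) hF hF0 hm 0
  have key : ∀ i j, (kz * M.map C * kz.transpose : Matrix (Fin 3) (Fin 3) R) i j = 0 := by
    intro i j
    have h := hM (kap 0 hx i) (kap 0 hx j)
    simp only [LinearMap.zero_apply, ZeroMemClass.coe_zero, kap_apply] at h
    have h2 : algebraMap R K ((kz * M.map C * kz.transpose : Matrix (Fin 3) (Fin 3) R) i j) = 0 := by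
      have h3 : algebraMap R K ((kz * M.map C * kz.transpose : Matrix (Fin 3) (Fin 3) R) i j) =
          algebraMap R K (X 0) ^ 2 * ∑ a, ∑ b, algebraMap R K (kz i a) / algebraMap R K (X 0) *
            algebraMap ℂ K (M a b) * (algebraMap R K (kz j b) / algebraMap R K (X 0)) := by
        rw [Matrix.mul_apply]
        simp only [Matrix.mul_apply, Matrix.transpose_apply, Matrix.map_apply, map_sum, map_mul,
          Finset.sum_mul, Finset.mul_sum, algC]
        rw [Finset.sum_comm]
        refine Finset.sum_congr rfl fun a _ => Finset.sum_congr rfl fun b _ => ?_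
        field_simp
      rw [h3, ← h, mul_zero]
    have hh : ((kz * M.map C * kz.transpose : Matrix (Fin 3) (Fin 3) R) i j).IsHomogeneous 2 := by
      rw [Matrix.mul_apply]
      refine IsHomogeneous.sum _ _ _ fun b _ => ?_
      rw [Matrix.mul_apply, Finset.sum_mul]
      refine IsHomogeneous.sum _ _ _ fun a _ => ?_
      have := ((kz_hom i a).mul (isHomogeneous_C (Fin 3) (M a b))).mul (kz_hom j b)
      simpa using this
    exact eq_zero_of_dvd hF hF0 hh (by omega) ((hm _).mp h2)
  have ev : ∀ (p : Fin 3 → ℂ) (i j : Fin 3), ∑ b, (∑ a, eval p (kz i a) * M a b) *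
      eval p (kz j b) = 0 := by
    intro p i j
    have h := congrArg (eval p) (key i j)
    rw [Matrix.mul_apply, map_zero] at h
    simpa only [Matrix.mul_apply, Matrix.transpose_apply, Matrix.map_apply, map_sum, map_mul,
      eval_C] using h
  have e0 := ev ![1, 0, 0]
  have e1 := ev ![0, 1, 0]
  have e2 := ev ![0, 0, 1]
  simp only [Fin.sum_univ_three] at e0 e1 e2
  ext i j
  have a1 := e2 0 0
  have a2 := e2 0 1
  have a3 := e2 1 0
  have a4 := e2 1 1
  have a5 := e1 0 0
  have a6 := e1 0 2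
  have a7 := e1 2 0
  have a8 := e0 1 2
  have a9 := e0 2 1
  simp [kz] at a1 a2 a3 a4 a5 a6 a7 a8 a9
  fin_cases i <;> fin_cases j <;> simp_all

end Pool.Agent.Lib.MP_478959_ag
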