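import Pool.Agent.Lib.MP_478959_ag.Spec

/-!
# MP_478959_ag: KOS, Koszul linear algebra over `ℂ[X₀, X₁, X₂]`
-/

set_option autoImplicit false

namespace Pool.Agent.Lib.MP_478959_ag

open MvPolynomial Matrix

namespace KosM

lemma not_dvd {i j : Fin 3} (h : i ≠ j) : ¬ (X i : R) ∣ X j := fun h' =>
  h (MvPolynomial.X_dvd_X.1 h')

lemma dvd_of {i j : Fin 3} (h : i ≠ j) {a b : R} (hab : X j * a = X i * b) : (X i : R) ∣ a :=
  ((MvPolynomial.X_prime (i := i)).dvd_or_dvd ⟨b, hab⟩).resolve_left (not_dvd h)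

/-- setting `X₂ = 0` -/
noncomputable def th : R →ₐ[ℂ] R := aeval (fun i : Fin 3 => if i = 2 then 0 else X i)

lemma th0 : th (X 0) = X 0 := by simp [th]
lemma th1 : th (X 1) = X 1 := by simp [th]
lemma th2 : th (X 2) = 0 := by simp [th]

lemma dvd_sub_th (b : R) : (X 2 : R) ∣ b - th b := by
  induction b using MvPolynomial.induction_on with
  | C a => simp [th, algHom_C]
  | add p q hp hq =>
    rw [map_add]
    have : p + q - (th p + th q) = (p - th p) + (q - th q) := by ring
    rw [this]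
    exact dvd_add hp hq
  | mul_X p i hp =>
    rw [map_mul]
    by_cases hi : i = 2
    · subst hi
      rw [th2, mul_zero, sub_zero]
      exact dvd_mul_left _ _
    · have : th (X i) = X i := by simp [th, hi]
      rw [this, ← sub_mul]
      exact dvd_mul_of_dvd_left hp _

/-- Koszul exactness, without degrees -/
lemma koszul0 (b : Fin 3 → R) (h : ∑ i, X i * b i = 0) : ∃ c : Fin 3 → R, b = kz.mulVec c := by
  rw [Fin.sum_univ_three] at h
  have h1 : X 0 * th (b 0) = X 1 * -th (b 1) := by
    have h2 := congrArg th h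
    rw [map_add, map_add, map_mul, map_mul, map_mul, th0, th1, th2, map_zero] at h2
    linear_combination h2
  obtain ⟨t, ht⟩ := dvd_of (i := 1) (j := 0) (by decide) h1
  have h3 : th (b 1) = -(X 0 * t) := by
    rw [ht] at h1
    have h4 : (X 1 : R) ≠ 0 := X_ne_zero 1
    apply mul_left_cancel₀ h4
    linear_combination h1
  obtain ⟨u, hu⟩ := dvd_sub_th (b 0)
  obtain ⟨v, hv⟩ := dvd_sub_th (b 1)
  have h5 : b 2 = -(X 0 * u + X 1 * v) := by
    have h4 : (X 2 : R) ≠ 0 := X_ne_zero 2
    apply mul_left_cancel₀ h4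
    linear_combination h - X 0 * hu - X 1 * hv - X 0 * ht - X 1 * h3
  refine ⟨![-v, u, -t], ?_⟩
  funext i
  fin_cases i
  · simp [kz, Matrix.mulVec, dotProduct, Fin.sum_univ_three]
    linear_combination hu + ht
  · simp [kz, Matrix.mulVec, dotProduct, Fin.sum_univ_three]
    linear_combination hv + h3
  · simp [kz, Matrix.mulVec, dotProduct, Fin.sum_univ_three]
    linear_combination h5

lemma comp_X_mul (e : ℕ) (j : Fin 3) (c : R) :
    homogeneousComponent (e + 1) (X j * c) = X j * homogeneousComponent e c := by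
  classical
  ext m
  rw [coeff_homogeneousComponent, coeff_X_mul', coeff_X_mul', coeff_homogeneousComponent]
  by_cases hj : j ∈ m.support
  · rw [if_pos hj, if_pos hj]
    have h1 : m = (m - Finsupp.single j 1) + Finsupp.single j 1 := by
      rw [tsub_add_cancel_of_le]
      rw [Finsupp.single_le_iff]
      exact Nat.one_le_iff_ne_zero.2 (Finsupp.mem_support_iff.1 hj)
    have h2 : m.degree = (m - Finsupp.single j 1).degree + 1 := by
      conv_lhs => rw [h1]
      rw [map_add, Finsupp.degree_single]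
    rw [h2]
    simp only [Nat.add_right_cancel_iff]
  · rw [if_neg hj, if_neg hj]
    simp

/-- Koszul exactness with degrees -/
lemma koszul (e : ℕ) (b : Fin 3 → R) (hb : ∀ i, (b i).IsHomogeneous (e + 1))
    (h : ∑ i, X i * b i = 0) :
    ∃ c : Fin 3 → R, (∀ i, (c i).IsHomogeneous e) ∧ b = kz.mulVec c := by
  obtain ⟨c, hc⟩ := koszul0 b h
  refine ⟨fun i => homogeneousComponent e (c i), fun i => homogeneousComponent_isHomogeneous _ _,
    ?_⟩
  have h0 : ∀ i, b i = homogeneousComponent (e + 1) (b i) := fun i => by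
    rw [homogeneousComponent_of_mem (hb i), if_pos rfl]
  funext i
  rw [h0 i, hc]
  fin_cases i
  · simp [kz, Matrix.mulVec, dotProduct, Fin.sum_univ_three, comp_X_mul]
  · simp [kz, Matrix.mulVec, dotProduct, Fin.sum_univ_three, comp_X_mul]
  · simp [kz, Matrix.mulVec, dotProduct, Fin.sum_univ_three, comp_X_mul]

/-- the kernel of the Koszul matrix -/
lemma kernel (g : Fin 3 → R) (hg : ∀ i, (g i).IsHomogeneous 2) (h : kz.mulVec g = 0) :
    ∃ q : R, q.IsHomogeneous 1 ∧ ∀ i, g i = X i * q := by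
  have e0 := congrFun h 0
  have e1 := congrFun h 1
  have e2 := congrFun h 2
  simp [kz, Matrix.mulVec, dotProduct, Fin.sum_univ_three] at e0 e1 e2
  have f1 : X 2 * g 0 = X 0 * g 2 := by linear_combination -e1
  obtain ⟨q, hq⟩ := dvd_of (i := 0) (j := 2) (by decide) f1
  have f2 : g 2 = X 2 * q := by
    have h4 : (X 0 : R) ≠ 0 := X_ne_zero 0
    apply mul_left_cancel₀ h4
    rw [← f1, hq]; ring
  have f3 : g 1 = X 1 * q := by
    have h4 : (X 0 : R) ≠ 0 := X_ne_zero 0
    apply mul_left_cancel₀ h4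
    rw [hq] at e2
    linear_combination -e2
  refine ⟨homogeneousComponent 1 q, homogeneousComponent_isHomogeneous _ _, fun i => ?_⟩
  have h0 : g i = homogeneousComponent (1 + 1) (g i) := by
    rw [homogeneousComponent_of_mem (hg i), if_pos rfl]
  rw [h0, ← comp_X_mul]
  congr 1
  fin_cases i
  · exact hq
  · exact f3
  · exact f2

/-- linear forms -/
lemma linear (q : R) (hq : q.IsHomogeneous 1) : ∃ lam : Fin 3 → ℂ, q = ∑ j, C (lam j) * X j := by
  classical
  refine ⟨fun j => coeff (Finsupp.single j 1) q, ?_⟩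
  ext m
  rw [coeff_sum]
  simp only [coeff_C_mul, coeff_X']
  by_cases hm : m.degree = 1
  · obtain ⟨j, rfl⟩ : ∃ j, m = Finsupp.single j 1 := by
      rw [Finsupp.degree_eq_sum, Fin.sum_univ_three] at hm
      have : (m 0 = 1 ∧ m 1 = 0 ∧ m 2 = 0) ∨ (m 0 = 0 ∧ m 1 = 1 ∧ m 2 = 0) ∨
          (m 0 = 0 ∧ m 1 = 0 ∧ m 2 = 1) := by omega
      rcases this with ⟨a, b, c⟩ | ⟨a, b, c⟩ | ⟨a, b, c⟩
      · exact ⟨0, by ext i; fin_cases i <;> simp [a, b, c]⟩
      · exact ⟨1, by ext i; fin_cases i <;> simp [a, b, c]⟩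
      · exact ⟨2, by ext i; fin_cases i <;> simp [a, b, c]⟩
    have hs : ∀ i : Fin 3, (Finsupp.single i 1 = (Finsupp.single j 1 : Fin 3 →₀ ℕ)) ↔ i = j :=
      fun i => (Finsupp.single_left_injective one_ne_zero).eq_iff
    simp [hs]
  · have h1 : coeff m q = 0 := by
      by_contra hne
      have := hq hne
      apply hm
      rw [Finsupp.degree_eq_weight_one]
      exact this
    rw [h1, Finset.sum_eq_zero]
    intro j _
    rw [if_neg, mul_zero]
    rintro rfl
    exact hm (by rw [Finsupp.degree_single])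

end KosM

open KosM in
theorem specKOS : SpecKOS := by
  intro B hB hl hr
  have h1 : ∀ j, ∃ c : Fin 3 → R, (∀ i, (c i).IsHomogeneous 1) ∧
      (fun i => B i j) = kz.mulVec c := fun j => koszul 1 _ (fun i => hB i j) (hl j)
  choose c hc1 hc2 using h1
  -- the vector `c x`
  have hg1 : ∀ a, (∑ j, c j a * X j : R).IsHomogeneous 2 := fun a =>
    IsHomogeneous.sum _ _ _ fun j _ => (hc1 j a).mul (isHomogeneous_X _ j)
  have hg2 : kz.mulVec (fun a => ∑ j, c j a * X j) = 0 := by
    funext i
    have h3 := hr i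
    have h4 : ∀ j, B i j = ∑ a, kz i a * c j a := fun j => congrFun (hc2 j) i
    simp only [h4] at h3
    rw [Pi.zero_apply, ← h3]
    simp only [Matrix.mulVec, dotProduct, Finset.mul_sum, Finset.sum_mul]
    rw [Finset.sum_comm]
    exact Finset.sum_congr rfl fun j _ => Finset.sum_congr rfl fun a _ => by ring
  obtain ⟨q, hq1, hq2⟩ := kernel _ hg1 hg2
  obtain ⟨lam, hlam⟩ := linear q hq1
  -- the corrected matrix
  have h5 : ∀ a, ∃ m : Fin 3 → R, (∀ i, (m i).IsHomogeneous 0) ∧
      (fun j => c j a - C (lam j) * X a) = kz.mulVec m := by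
    intro a
    refine koszul 0 _ (fun j => ?_) ?_
    · refine (hc1 j a).sub ?_
      simpa using (isHomogeneous_C (Fin 3) (lam j)).mul (isHomogeneous_X ℂ a)
    · have h6 := hq2 a
      rw [hlam] at h6
      rw [Fin.sum_univ_three] at h6 ⊢
      rw [Fin.sum_univ_three] at h6
      linear_combination h6
  choose m hm1 hm2 using h5
  have hm3 : ∀ a i, ∃ z : ℂ, m a i = C z := fun a i =>
    ⟨_, (totalDegree_eq_zero_iff_eq_C.1 (by
      have := (hm1 a i).totalDegree_le
      omega))⟩
  choose M hM using hm3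
  refine ⟨M, ?_⟩
  ext1 i j
  have h7 : ∀ i j, B i j = ∑ a, kz i a * c j a := fun i j => congrFun (hc2 j) i
  have h8 : ∀ a j, c j a = ∑ b, kz j b * C (M a b) + C (lam j) * X a := fun a j => by
    have h9 := congrFun (hm2 a) j
    simp only [Matrix.mulVec, dotProduct, hM] at h9
    rw [← h9]; ring
  rw [h7 i j]
  simp only [h8, Matrix.mul_apply, Matrix.map_apply, Matrix.transpose_apply]
  have h10 : ∑ a, kz i a * X a = 0 := by
    fin_cases i <;> simp [kz, Fin.sum_univ_three] <;> ring
  have h11 : ∑ a, kz i a * (∑ b, kz j b * C (M a b) + C (lam j) * X a) =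
      ∑ a, kz i a * (∑ b, kz j b * C (M a b)) + C (lam j) * ∑ a, kz i a * X a := by
    rw [Finset.mul_sum, ← Finset.sum_add_distrib]
    exact Finset.sum_congr rfl fun a _ => by ring
  rw [h11, h10, mul_zero, add_zero]
  simp only [Finset.mul_sum, Finset.sum_mul]
  rw [Finset.sum_comm]
  exact Finset.sum_congr rfl fun a _ => Finset.sum_congr rfl fun b _ => by ring

end Pool.Agent.Lib.MP_478959_ag
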