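import Pool.Agent.Lib.MP_478959_ag.Spec

/-!
# MP_478959_ag: module PN

Global sections of `𝒪_C(k)` on a plane curve `C` are classes of forms of degree `k`.
-/

set_option autoImplicit false

namespace Pool.Agent.Lib.MP_478959_ag

open MvPolynomial

namespace PnM

/-! ### A linear change of coordinates -/

/-- the linear change of coordinates `e₀ ↦ q` -/
noncomputable def fwd (q : Fin 3 → ℂ) : R →ₐ[ℂ] R :=
  aeval fun i => if i = 0 then C (q 0) * X 0 else X i + C (q i) * X 0

/-- its inverse -/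
noncomputable def bwd (q : Fin 3 → ℂ) : R →ₐ[ℂ] R :=
  aeval fun i => if i = 0 then C (q 0)⁻¹ * X 0 else X i - C (q i * (q 0)⁻¹) * X 0

lemma fwd_bwd {q : Fin 3 → ℂ} (h : q 0 ≠ 0) : (fwd q).comp (bwd q) = AlgHom.id ℂ R := by
  apply MvPolynomial.algHom_ext
  intro i
  have h1 : (C (q 0)⁻¹ * C (q 0) : R) = 1 := by
    rw [← C_mul, inv_mul_cancel₀ h, C_1]
  have h2 : (C (q i * (q 0)⁻¹) * C (q 0) : R) = C (q i) := by
    rw [← C_mul, mul_assoc, inv_mul_cancel₀ h, mul_one]
  by_cases hi : i = 0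
  · subst hi
    simp only [AlgHom.comp_apply, bwd, fwd, aeval_X, if_true, map_mul, algHom_C, AlgHom.id_apply,
      MvPolynomial.algebraMap_eq]
    rw [← mul_assoc, h1, one_mul]
  · simp only [AlgHom.comp_apply, bwd, fwd, aeval_X, if_neg hi, if_true, map_sub, AlgHom.id_apply]
    rw [map_mul (aeval _), algHom_C, MvPolynomial.algebraMap_eq, aeval_X, if_pos rfl, ← mul_assoc, h2]
    ring

lemma bwd_fwd {q : Fin 3 → ℂ} (h : q 0 ≠ 0) : (bwd q).comp (fwd q) = AlgHom.id ℂ R := by
  apply MvPolynomial.algHom_ext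
  intro i
  have h1 : (C (q 0) * C (q 0)⁻¹ : R) = 1 := by
    rw [← C_mul, mul_inv_cancel₀ h, C_1]
  by_cases hi : i = 0
  · subst hi
    simp only [AlgHom.comp_apply, bwd, fwd, aeval_X, if_true, map_mul, algHom_C, AlgHom.id_apply,
      MvPolynomial.algebraMap_eq]
    rw [← mul_assoc, h1, one_mul]
  · simp only [AlgHom.comp_apply, bwd, fwd, aeval_X, if_neg hi, if_true, map_add, map_mul, algHom_C,
      AlgHom.id_apply, MvPolynomial.algebraMap_eq]
    ring

/-- the change of coordinates, followed by `R ≃ ℂ[X₁, X₂][X₀]` -/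
noncomputable def Phi {q : Fin 3 → ℂ} (h : q 0 ≠ 0) :
    R ≃ₐ[ℂ] Polynomial (MvPolynomial (Fin 2) ℂ) :=
  (AlgEquiv.ofAlgHom (fwd q) (bwd q) (fwd_bwd h) (bwd_fwd h)).trans (finSuccEquiv ℂ 2)

lemma Phi_apply {q : Fin 3 → ℂ} (h : q 0 ≠ 0) (r : R) : Phi h r = finSuccEquiv ℂ 2 (fwd q r) := rfl

lemma Phi_symm {q : Fin 3 → ℂ} (h : q 0 ≠ 0) (j : Fin 2) :
    (Phi h).symm (Polynomial.C (X j)) = bwd q (X j.succ) := by
  rw [AlgEquiv.symm_apply_eq, Phi_apply]
  have h1 : fwd q (bwd q (X j.succ)) = X j.succ := by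
    have := DFunLike.congr_fun (fwd_bwd h) (X j.succ)
    simpa using this
  rw [h1, finSuccEquiv_X_succ]

lemma eval_bwd (q : Fin 3 → ℂ) (j : Fin 2) : eval (0 : Fin 3 → ℂ) (bwd q (X j.succ)) = 0 := by
  simp [bwd, Fin.succ_ne_zero]

lemma eval_fwd (q : Fin 3 → ℂ) (F : R) : eval (Fin.cons 1 0 : Fin 3 → ℂ) (fwd q F) = eval q F := by
  have h : (aeval (Fin.cons 1 0 : Fin 3 → ℂ)).comp (fwd q) = (aeval q : R →ₐ[ℂ] ℂ) := by
    apply MvPolynomial.algHom_ext
    intro i
    by_cases hi : i = 0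
    · subst hi
      simp [fwd]
    · obtain ⟨j, rfl⟩ := Fin.exists_succ_eq.mpr hi
      simp [fwd, Fin.succ_ne_zero]
  have h1 := DFunLike.congr_fun h F
  simpa [coe_aeval_eq_eval] using h1

lemma fwd_hom {q : Fin 3 → ℂ} {F : R} {δ : ℕ} (hF : F.IsHomogeneous δ) :
    (fwd q F).IsHomogeneous δ := by
  have h := hF.aeval (fun i : Fin 3 => if i = 0 then (C (q 0) * X 0 : R) else X i + C (q i) * X 0)
    (n := 1) (by
      intro i
      by_cases hi : i = 0
      · simp only [hi, if_true]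
        exact isHomogeneous_C_mul_X _ _
      · simp only [if_neg hi]
        exact (isHomogeneous_X _ _).add (isHomogeneous_C_mul_X _ _))
  rw [one_mul] at h
  exact h

/-- after the change of coordinates `F` is monic in `X₀` up to a constant -/
lemma exists_monic {q : Fin 3 → ℂ} (h : q 0 ≠ 0) {F : R} {δ : ℕ} (hF : F.IsHomogeneous δ)
    (hq : eval q F ≠ 0) : ∃ c : ℂ, c ≠ 0 ∧ (Polynomial.C (C c) * Phi h F).Monic := by
  have hG := fwd_hom (q := q) hF
  set G : R := fwd q F with hGd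
  have hdeg : (finSuccEquiv ℂ 2 G).natDegree ≤ δ := by
    rw [natDegree_finSuccEquiv]
    exact (degreeOf_le_totalDegree _ _).trans hG.totalDegree_le
  have hcoef : ∀ i j, i + j = δ → ((finSuccEquiv ℂ 2 G).coeff i).IsHomogeneous j := fun i j hij =>
    hG.finSuccEquiv_coeff_isHomogeneous i j hij
  have h0 : (finSuccEquiv ℂ 2 G).coeff δ ≠ 0 := by
    intro h0
    apply hq
    rw [← eval_fwd, ← hGd, eval_eq_eval_mv_eval', Polynomial.eval_eq_sum_range' (n := δ + 1)
      (lt_of_le_of_lt Polynomial.natDegree_map_le (Nat.lt_succ_of_le hdeg))]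
    apply Finset.sum_eq_zero
    intro i hi
    rw [Polynomial.coeff_map, one_pow, mul_one]
    rcases Nat.lt_succ_iff_lt_or_eq.mp (Finset.mem_range.mp hi) with h2 | h2
    · have h3 := hcoef i (δ - i) (by omega)
      have h4 : coeff 0 ((finSuccEquiv ℂ 2 G).coeff i) = 0 := by
        apply h3.coeff_eq_zero
        simp only [map_zero]
        omega
      rw [← constantCoeff_eq] at h4
      rw [eval_zero]
      exact h4
    · rw [h2, h0, map_zero]
  have h1 := (totalDegree_eq_zero_iff_eq_C (p := (finSuccEquiv ℂ 2 G).coeff δ)).mp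
    (Nat.le_zero.mp (hcoef δ 0 (by omega)).totalDegree_le)
  set c : ℂ := coeff 0 ((finSuccEquiv ℂ 2 G).coeff δ) with hc
  have hc0 : c ≠ 0 := by
    intro h2
    apply h0
    rw [h1, h2, C_0]
  refine ⟨c⁻¹, inv_ne_zero hc0, Polynomial.monic_of_natDegree_le_of_coeff_eq_one δ ?_ ?_⟩
  · refine (Polynomial.natDegree_C_mul_le _ _).trans ?_
    rw [Phi_apply]
    exact hdeg
  · rw [Polynomial.coeff_C_mul, Phi_apply, ← hGd, h1, ← C_mul, inv_mul_cancel₀ hc0, C_1]

/-! ### Division with remainder -/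

lemma descend {B K : Type} [CommRing B] [IsDomain B] [Field K] (G : Polynomial B) (hG : G.Monic)
    (θ : Polynomial B →+* K) (hker : ∀ s, θ s = 0 ↔ G ∣ s) (x y : B)
    (hxy : ∀ r r' : B, y * r = x * r' → x ∣ r) (hx : θ (Polynomial.C x) ≠ 0) (f : K)
    (a a' : Polynomial B) (h1 : θ (Polynomial.C x) * f = θ a)
    (h2 : θ (Polynomial.C y) * f = θ a') : ∃ s, θ s = f := by
  have h3 : G ∣ y • a - x • a' := by
    rw [← hker, Polynomial.smul_eq_C_mul, Polynomial.smul_eq_C_mul, map_sub, map_mul, map_mul,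
      ← h1, ← h2]
    ring
  have h4 : y • (a %ₘ G) = x • (a' %ₘ G) := by
    have := (Polynomial.modByMonic_eq_zero_iff_dvd hG).mpr h3
    rw [Polynomial.sub_modByMonic, Polynomial.smul_modByMonic, Polynomial.smul_modByMonic,
      sub_eq_zero] at this
    exact this
  have h5 : Polynomial.C x ∣ a %ₘ G := by
    rw [Polynomial.C_dvd_iff_dvd_coeff]
    intro j
    apply hxy _ ((a' %ₘ G).coeff j)
    have := congrArg (fun p => Polynomial.coeff p j) h4
    simpa using this
  obtain ⟨s, hs⟩ := h5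
  refine ⟨s, ?_⟩
  have h6 : θ a = θ (a %ₘ G) := by
    rw [← sub_eq_zero, ← map_sub, hker]
    refine ⟨a /ₘ G, ?_⟩
    have := Polynomial.modByMonic_add_div a G
    linear_combination (-1 : Polynomial B) * this
  rw [h6, hs, map_mul] at h1
  exact (mul_left_cancel₀ hx h1).symm

/-! ### The conductor ideal -/

section
variable {F : R} {K : Type} [Field K] [Algebra R K]

/-- `{h : h f ∈ R/(F)}` -/
def cond (K : Type) [Field K] [Algebra R K] (f : K) : Ideal R where
  carrier := {h | ∃ a : R, f * algebraMap R K h = algebraMap R K a}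
  add_mem' := by
    rintro h h' ⟨a, ha⟩ ⟨a', ha'⟩
    exact ⟨a + a', by rw [map_add, map_add, mul_add, ha, ha']⟩
  zero_mem' := ⟨0, by simp⟩
  smul_mem' := by
    rintro c h ⟨a, ha⟩
    refine ⟨c * a, ?_⟩
    rw [smul_eq_mul, map_mul, map_mul, ← ha]
    ring

lemma mem_cond {f : K} {h : R} : h ∈ cond K f ↔ ∃ a : R, f * algebraMap R K h = algebraMap R K a :=
  Iff.rfl

lemma exists_pow (hK : IsModel F K) {k : ℕ} {f : K} (hf : IsSec F K k f) {l : R}
    (hl : eval (0 : Fin 3 → ℂ) l = 0) : ∃ n, l ^ n ∈ cond K f := by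
  have h1 : l ∈ (cond K f).radical := by
    rw [← vanishingIdeal_zeroLocus_eq_radical (K := ℂ)]
    intro p hp
    rw [mem_zeroLocus_iff] at hp
    by_cases hp0 : p = 0
    · rw [hp0]
      exact hl
    · exfalso
      by_cases hF : eval p F = 0
      · obtain ⟨n, a, b, ha, hb, hb0, h⟩ := hf p hp0 hF
        apply hb0
        exact hp b ⟨a, h⟩
      · apply hF
        exact hp F ⟨0, by rw [map_zero, (hK F).mpr dvd_rfl, mul_zero]⟩
  exact h1

end

/-! ### A point of the curve -/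

lemma exists_point {F : R} (hirr : Irreducible F) : ∃ p : Fin 3 → ℂ, p ≠ 0 ∧ eval p F = 0 := by
  by_contra hcon
  push Not at hcon
  have hprime : Prime F := hirr.prime
  have h1 : ∀ i : Fin 3, F ∣ X i := by
    intro i
    have h2 : (X i : R) ∈ (Ideal.span {F}).radical := by
      rw [← vanishingIdeal_zeroLocus_eq_radical (K := ℂ)]
      intro p hp
      rw [mem_zeroLocus_iff] at hp
      have h3 : eval p F = 0 := hp F (Ideal.subset_span rfl)
      have h4 : p = 0 := by
        by_contra h4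
        exact hcon p h4 h3
      rw [h4]
      simp
    obtain ⟨n, hn⟩ := h2
    rw [Ideal.mem_span_singleton] at hn
    exact hprime.dvd_of_dvd_pow hn
  have h2 : (X 0 : R) ∣ X 1 := (hirr.dvd_symm (MvPolynomial.X_prime (R := ℂ) (i := (0 : Fin 3))).irreducible (h1 0)).trans (h1 1)
  rw [X_dvd_X] at h2
  exact absurd h2 (by decide)

end PnM

attribute [local instance] MvPolynomial.gradedAlgebra

open PnM in
theorem specPN : SpecPN := by
  intro F δ hhom hirr K _ _ _ _ hK k f hf
  -- a point off the curve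
  obtain ⟨q, hq⟩ : ∃ q : Fin 3 → ℂ, eval q (F * X 0) ≠ 0 := by
    by_contra hcon
    push Not at hcon
    have : F * X 0 = 0 := MvPolynomial.funext fun q => by rw [hcon q, map_zero]
    exact mul_ne_zero hirr.ne_zero (X_ne_zero 0) this
  rw [map_mul, eval_X] at hq
  have hq0 : q 0 ≠ 0 := right_ne_zero_of_mul hq
  have hqF : eval q F ≠ 0 := left_ne_zero_of_mul hq
  obtain ⟨c, hc, hmonic⟩ := exists_monic hq0 hhom hqF
  -- the linear forms `X₁`, `X₂` in the new coordinates
  obtain ⟨n0, hn0⟩ := exists_pow hK hf (eval_bwd q 0)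
  obtain ⟨n1, hn1⟩ := exists_pow hK hf (eval_bwd q 1)
  set M : ℕ := n0 + n1 with hM
  have hM0 : (bwd q (X (Fin.succ 0))) ^ M ∈ cond K f := by
    rw [hM, add_comm, pow_add]
    exact Ideal.mul_mem_left _ _ hn0
  have hM1 : (bwd q (X (Fin.succ 1))) ^ M ∈ cond K f := by
    rw [hM, pow_add]
    exact Ideal.mul_mem_left _ _ hn1
  let θ : Polynomial (MvPolynomial (Fin 2) ℂ) →+* K :=
    (algebraMap R K).comp ((Phi hq0).symm : Polynomial (MvPolynomial (Fin 2) ℂ) →+* R)
  have hθ : ∀ s, θ s = algebraMap R K ((Phi hq0).symm s) := fun s => rfl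
  have hθ' : ∀ r, θ (Phi hq0 r) = algebraMap R K r := fun r => by
    rw [hθ, AlgEquiv.symm_apply_apply]
  have hker : ∀ s, θ s = 0 ↔ Polynomial.C (C c) * Phi hq0 F ∣ s := by
    intro s
    have hu : IsUnit (Polynomial.C (C c) : Polynomial (MvPolynomial (Fin 2) ℂ)) :=
      ((IsUnit.mk0 c hc).map C).map Polynomial.C
    rw [hθ, hK, hu.mul_left_dvd]
    constructor
    · rintro ⟨t, ht⟩
      refine ⟨Phi hq0 t, ?_⟩
      rw [← map_mul, ← ht, AlgEquiv.apply_symm_apply]
    · rintro ⟨t, ht⟩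
      refine ⟨(Phi hq0).symm t, ?_⟩
      rw [ht, map_mul, AlgEquiv.symm_apply_apply]
  obtain ⟨a, ha⟩ := hM0
  obtain ⟨a', ha'⟩ := hM1
  have hpow : ∀ j : Fin 2, θ (Polynomial.C (X j ^ M)) =
      algebraMap R K ((bwd q (X j.succ)) ^ M) := by
    intro j
    rw [hθ, map_pow Polynomial.C, map_pow, Phi_symm]
  have hX : θ (Polynomial.C (X 0 ^ M)) ≠ 0 := by
    rw [hθ, map_pow Polynomial.C, map_pow, map_pow]
    apply pow_ne_zero
    rw [← hθ, Ne, hker]
    intro hdvd
    -- a monic polynomial dividing a nonzero constant is constant, but `F` is not a unit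
    have h1 := Polynomial.natDegree_le_of_dvd hdvd (by
      rw [Ne, Polynomial.C_eq_zero]
      exact X_ne_zero 0)
    rw [Polynomial.natDegree_C, Nat.le_zero, hmonic.natDegree_eq_zero] at h1
    have hu : IsUnit (Phi hq0 F) := isUnit_of_mul_isUnit_right (h1 ▸ isUnit_one)
    have hu' : IsUnit F := by
      have := hu.map (Phi hq0).symm
      rwa [AlgEquiv.symm_apply_apply] at this
    exact hirr.not_isUnit hu'
  obtain ⟨s, hs⟩ := descend (Polynomial.C (C c) * Phi hq0 F) hmonic θ hker (X 0 ^ M) (X 1 ^ M) (by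
    intro r r' h
    have hX1 : ¬ (X 0 : MvPolynomial (Fin 2) ℂ) ∣ X 1 ^ M := by
      intro h1
      have h2 := (MvPolynomial.X_prime (R := ℂ) (i := (0 : Fin 2))).dvd_of_dvd_pow h1
      rw [X_dvd_X] at h2
      exact absurd h2 (by decide)
    exact (MvPolynomial.X_prime (R := ℂ) (i := (0 : Fin 2))).pow_dvd_of_dvd_mul_left M hX1 ⟨r', h⟩) hX f
    (Phi hq0 a) (Phi hq0 a')
    (by rw [hpow, hθ', ← ha, mul_comm]) (by rw [hpow, hθ', ← ha', mul_comm])
  set c0 : R := (Phi hq0).symm s with hc0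
  have hc0f : algebraMap R K c0 = f := hs
  -- the homogeneous component of degree `k`
  obtain ⟨p, hp0, hpF⟩ := exists_point hirr
  obtain ⟨n, a1, b1, ha1, hb1, hb10, h1⟩ := hf p hp0 hpF
  refine ⟨homogeneousComponent k c0, homogeneousComponent_isHomogeneous _ _, ?_⟩
  have h2 : F ∣ c0 * b1 - a1 := by
    rw [← hK, map_sub, map_mul, hc0f, h1, sub_self]
  have hI : (Ideal.span {F}).IsHomogeneous (homogeneousSubmodule (Fin 3) ℂ) :=
    Ideal.homogeneous_span _ _ (by
      rintro x hx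
      rw [Set.mem_singleton_iff.mp hx]
      exact ⟨δ, hhom⟩)
  have h3 : homogeneousComponent (n + k) (c0 * b1 - a1) ∈ Ideal.span {F} :=
    homogeneousComponent_mem_of_mem hI (Ideal.mem_span_singleton.mpr h2) _
  have h4 : homogeneousComponent (n + k) (c0 * b1) = homogeneousComponent k c0 * b1 := by
    have h5 := DirectSum.coe_decompose_mul_add_of_right_mem (homogeneousSubmodule (Fin 3) ℂ)
      (a := c0) (b := b1) (i := k) (j := n) hb1
    rw [add_comm k n] at h5
    have h6 : ∀ (g : R) (i : ℕ), (DirectSum.decompose (homogeneousSubmodule (Fin 3) ℂ) g i : R) =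
        homogeneousComponent i g := fun g i => decomposition.decompose'_apply g i
    rw [h6, h6] at h5
    exact h5
  rw [map_sub, h4, homogeneousComponent_eq_self ha1, Ideal.mem_span_singleton, ← hK, map_sub,
    map_mul, sub_eq_zero, ← h1] at h3
  have hb0 : algebraMap R K b1 ≠ 0 := by
    intro h5
    obtain ⟨t, ht⟩ := (hK b1).mp h5
    apply hb10
    rw [ht, map_mul, hpF, zero_mul]
  exact mul_right_cancel₀ hb0 h3

end Pool.Agent.Lib.MP_478959_ag
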