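import Pool.Agent.Lib.MP_478959_ag.Inj

/-!
# MP_478959_ag: module SUR
-/

set_option autoImplicit false
set_option linter.unusedSectionVars false

namespace Pool.Agent.Lib.MP_478959_ag

open MvPolynomial InjM

namespace SurM

variable {F : R} {K : Type} [Field K] [Algebra ℂ K] [Algebra R K] [IsScalarTower ℂ R K]

/-- `X_j / X_l` -/
noncomputable def qq (l j : Fin 3) (hl : algebraMap R K (X l) ≠ 0) : fld K :=
  ⟨algebraMap R K (X j) / algebraMap R K (X l),
    ⟨1, X j, X l, isHomogeneous_X ℂ j, isHomogeneous_X ℂ l, hl, div_mul_cancel₀ _ hl⟩⟩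

lemma qq_coe (l j : Fin 3) (hl : algebraMap R K (X l) ≠ 0) :
    ((qq l j hl : fld K) : K) = algebraMap R K (X j) / algebraMap R K (X l) := rfl

lemma ext_DK {u v : DK K} (h : ∀ j, ((u : Fin 3 → fld K) j : K) = ((v : Fin 3 → fld K) j : K)) :
    u = v := by
  apply Subtype.ext
  funext j
  exact Subtype.ext (h j)

lemma smul_coe (c : fld K) (u : DK K) (j : Fin 3) :
    (((c • u : DK K) : Fin 3 → fld K) j : K) = (c : K) * ((u : Fin 3 → fld K) j : K) := rfl

lemma add_coe (u v : DK K) (j : Fin 3) :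
    (((u + v : DK K) : Fin 3 → fld K) j : K) =
      ((u : Fin 3 → fld K) j : K) + ((v : Fin 3 → fld K) j : K) := rfl

lemma kap_change (l l' : Fin 3) (hl : algebraMap R K (X l) ≠ 0)
    (hl' : algebraMap R K (X l') ≠ 0) (i : Fin 3) : kap l' hl' i = qq l' l hl' • kap l hl i := by
  apply ext_DK
  intro j
  rw [smul_coe, kap_apply, kap_apply, qq_coe]
  field_simp

lemma kap_sum (l : Fin 3) (hl : algebraMap R K (X l) ≠ 0) :
    qq l 0 hl • kap l hl 0 + qq l 1 hl • kap l hl 1 + qq l 2 hl • kap l hl 2 = 0 := by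
  apply ext_DK
  intro j
  rw [add_coe, add_coe, smul_coe, smul_coe, smul_coe, kap_apply, kap_apply, kap_apply, qq_coe,
    qq_coe, qq_coe]
  have h := congrArg (algebraMap R K) (kz_col j)
  rw [Fin.sum_univ_three, map_zero] at h
  simp only [map_add, map_mul] at h
  show _ = (0 : K)
  field_simp
  linear_combination h

lemma span (hl : algebraMap R K (X 0) ≠ 0) (u : DK K) :
    u = (u : Fin 3 → fld K) 2 • kap 0 hl 1 + (-(u : Fin 3 → fld K) 1) • kap 0 hl 2 := by
  have hu : ∑ i, ((u : Fin 3 → fld K) i : K) * algebraMap R K (X i) = 0 := u.2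
  rw [Fin.sum_univ_three] at hu
  apply ext_DK
  intro j
  rw [add_coe, smul_coe, smul_coe, kap_apply, kap_apply]
  have hneg : ((-(u : Fin 3 → fld K) 1 : fld K) : K) = -((u : Fin 3 → fld K) 1 : K) := rfl
  rw [hneg]
  fin_cases j
  · simp [kz]
    field_simp
    linear_combination hu
  · simp [kz]
    field_simp
  · simp [kz]
    field_simp

lemma form_unique (hl : algebraMap R K (X 0) ≠ 0)
    {β γ : DK K →ₗ[fld K] DK K →ₗ[fld K] fld K}
    (h : ∀ i j, β (kap 0 hl i) (kap 0 hl j) = γ (kap 0 hl i) (kap 0 hl j)) : β = γ := by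
  apply LinearMap.ext
  intro u
  apply LinearMap.ext
  intro v
  rw [span hl u, span hl v]
  simp only [map_add, map_smul, LinearMap.add_apply, LinearMap.smul_apply, h]

lemma dat_kap {p : Fin 3 → ℂ} (l : Fin 3) (hl : algebraMap R K (X l) ≠ 0) (hp : p l ≠ 0)
    (i : Fin 3) : DAt K p (kap l hl i) := by
  intro j
  rw [kap_apply]
  exact ⟨1, kz i j, X l, kz_hom i j, isHomogeneous_X ℂ l, by simpa using hp,
    div_mul_cancel₀ _ hl⟩

/-- the products `X_l² β(κ_i^l, κ_j^l)` -/
noncomputable def BB (β : DK K →ₗ[fld K] DK K →ₗ[fld K] fld K) (l : Fin 3)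
    (hl : algebraMap R K (X l) ≠ 0) (i j : Fin 3) : K :=
  algebraMap R K (X l) ^ 2 * (β (kap l hl i) (kap l hl j) : K)

lemma BB_change (β : DK K →ₗ[fld K] DK K →ₗ[fld K] fld K) (l l' : Fin 3)
    (hl : algebraMap R K (X l) ≠ 0) (hl' : algebraMap R K (X l') ≠ 0) (i j : Fin 3) :
    BB β l' hl' i j = BB β l hl i j := by
  unfold BB
  rw [kap_change l l' hl hl' i, kap_change l l' hl hl' j]
  simp only [map_smul, LinearMap.smul_apply, smul_eq_mul]
  have h1 : ((qq l' l hl' * (qq l' l hl' * β (kap l hl i) (kap l hl j)) : fld K) : K) =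
      (qq l' l hl' : K) * ((qq l' l hl' : K) * (β (kap l hl i) (kap l hl j) : K)) := rfl
  have h2 : ((qq l' l hl' * (qq l' l hl' * β (kap l hl i) (kap l hl j)) : fld K) : K) =
      (qq l' l hl' : K) * ((qq l' l hl' : K) * (β (kap l hl i) (kap l hl j) : K)) := rfl
  rw [h1, qq_coe]
  field_simp

end SurM

open SurM in
theorem specSUR (hPN : SpecPN) (hKOS : SpecKOS) : SpecSUR := by
  intro F δ hδ hF hirr K _ _ _ _ hm β hβ
  have hF0 : F ≠ 0 := hirr.ne_zero
  have hx : ∀ l, algebraMap R K (X l) ≠ 0 := fun l => X_ne (by omega) hF hF0 hm l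
  have hsec : ∀ i j, IsSec F K 2 (BB β 0 (hx 0) i j) := by
    intro i j p hp hFp
    obtain ⟨l, hl⟩ : ∃ l, p l ≠ 0 := by
      by_contra h
      push Not at h
      exact hp (funext h)
    rw [← BB_change β 0 l (hx 0) (hx l)]
    have h1 := hβ p hp hFp _ _ (dat_kap l (hx l) hl i) (dat_kap l (hx l) hl j)
    have h2 : ((X l : R) ^ 2).IsHomogeneous 2 := by
      have := (isHomogeneous_X ℂ l).pow 2
      simpa using this
    have h3 := reg_mul (reg_pol (K := K) (p := p) h2) h1
    rw [map_pow] at h3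
    exact h3
  have hc : ∀ i j, ∃ c : R, c.IsHomogeneous 2 ∧ algebraMap R K c = BB β 0 (hx 0) i j :=
    fun i j => hPN F δ hF hirr K hm 2 _ (hsec i j)
  choose c hc1 hc2 using hc
  have hrow : ∀ j, ∑ i, X i * c i j = 0 := by
    intro j
    have h1 : algebraMap R K (∑ i, X i * c i j) = 0 := by
      rw [Fin.sum_univ_three]
      simp only [map_add, map_mul, hc2]
      have h2 := congrArg (fun w => ((β w (kap 0 (hx 0) j) : fld K) : K)) (kap_sum 0 (hx 0))
      simp only [map_add, map_smul, map_zero, LinearMap.add_apply, LinearMap.smul_apply,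
        LinearMap.zero_apply, smul_eq_mul, AddMemClass.coe_add, MulMemClass.coe_mul, qq_coe,
        ZeroMemClass.coe_zero] at h2
      unfold BB
      have h0 := hx 0
      field_simp at h2
      linear_combination (algebraMap R K (X 0)) ^ 2 * h2
    have hh : (∑ i, X i * c i j).IsHomogeneous 3 := by
      refine IsHomogeneous.sum _ _ _ fun i _ => ?_
      have := (isHomogeneous_X ℂ i).mul (hc1 i j)
      simpa using this
    exact eq_zero_of_dvd hF hF0 hh (by omega) ((hm _).mp h1)
  have hcol : ∀ i, ∑ j, c i j * X j = 0 := by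
    intro i
    have h1 : algebraMap R K (∑ j, c i j * X j) = 0 := by
      rw [Fin.sum_univ_three]
      simp only [map_add, map_mul, hc2]
      have h2 := congrArg (fun w => ((β (kap 0 (hx 0) i) w : fld K) : K)) (kap_sum 0 (hx 0))
      simp only [map_add, map_smul, map_zero, smul_eq_mul, AddMemClass.coe_add,
        MulMemClass.coe_mul, qq_coe, ZeroMemClass.coe_zero] at h2
      unfold BB
      have h0 := hx 0
      field_simp at h2
      linear_combination (algebraMap R K (X 0)) ^ 2 * h2
    have hh : (∑ j, c i j * X j).IsHomogeneous 3 := by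
      refine IsHomogeneous.sum _ _ _ fun j _ => ?_
      have := (hc1 i j).mul (isHomogeneous_X ℂ j)
      simpa using this
    exact eq_zero_of_dvd hF hF0 hh (by omega) ((hm _).mp h1)
  obtain ⟨M, hM⟩ := hKOS (Matrix.of c) hc1 hrow hcol
  refine ⟨M, ?_⟩
  have hβ' : β = fm K M := by
    apply form_unique (hx 0)
    intro i j
    apply Subtype.ext
    rw [isForm_fm M]
    simp only [kap_apply]
    have h1 : algebraMap R K (X 0) ^ 2 * (β (kap 0 (hx 0) i) (kap 0 (hx 0) j) : K) =
        algebraMap R K ((kz * M.map C * kz.transpose : Matrix (Fin 3) (Fin 3) R) i j) := by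
      rw [← hM]
      exact (hc2 i j).symm
    have h3 : algebraMap R K ((kz * M.map C * kz.transpose : Matrix (Fin 3) (Fin 3) R) i j) =
        algebraMap R K (X 0) ^ 2 * ∑ a, ∑ b, algebraMap R K (kz i a) / algebraMap R K (X 0) *
          algebraMap ℂ K (M a b) * (algebraMap R K (kz j b) / algebraMap R K (X 0)) := by
      have hx0 := hx 0
      rw [Matrix.mul_apply]
      simp only [Matrix.mul_apply, Matrix.transpose_apply, Matrix.map_apply, map_sum, map_mul,
        Finset.sum_mul, Finset.mul_sum, algC]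
      rw [Finset.sum_comm]
      refine Finset.sum_congr rfl fun a _ => Finset.sum_congr rfl fun b _ => ?_
      field_simp
    rw [h3] at h1
    exact mul_left_cancel₀ (pow_ne_zero 2 (hx 0)) h1
  rw [hβ']
  exact isForm_fm M

end Pool.Agent.Lib.MP_478959_ag
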