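import Pool.Agent.Lib.MP_478959_ag.Defs2
import Pool.Agent.Lib.MP_478959_ag.Pn
import Pool.Agent.Lib.MP_478959_ag.Kos
import Pool.Agent.Lib.MP_478959_ag.Sur
import Pool.Agent.Lib.MP_478959_ag.Inj

/-!
# MP_478959_ag: the theorem for the unbundled definition
-/

set_option autoImplicit false

namespace Pool.Agent.Lib.MP_478959_ag

open MvPolynomial

namespace Fin2M

variable {F : R} {K : Type} [Field K] [Algebra ℂ K] [Algebra R K] [IsScalarTower ℂ R K]

/-- a vector of `DK` as a vector over `K` -/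
def cv (u : DK K) : Fin 3 → K := fun i => ((u : Fin 3 → fld K) i : K)

lemma genD_cv (u : DK K) : GenD K (cv u) :=
  ⟨fun i => ((u : Fin 3 → fld K) i).2, u.2⟩

/-- conversely -/
def up {u : Fin 3 → K} (hu : GenD K u) : DK K := ⟨fun i => ⟨u i, hu.1 i⟩, hu.2⟩

lemma cv_up {u : Fin 3 → K} (hu : GenD K u) : cv (up hu) = u := rfl

open Classical in
/-- the section of a constant matrix -/
noncomputable def mk (M : Matrix (Fin 3) (Fin 3) ℂ) (u v : Fin 3 → K) : K :=
  if GenD K u ∧ GenD K v then ∑ i, ∑ j, u i * algebraMap ℂ K (M i j) * v j else 0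

lemma mk_pos (M : Matrix (Fin 3) (Fin 3) ℂ) {u v : Fin 3 → K} (hu : GenD K u) (hv : GenD K v) :
    mk M u v = ∑ i, ∑ j, u i * algebraMap ℂ K (M i j) * v j := if_pos ⟨hu, hv⟩

lemma genD_add {u v : Fin 3 → K} (hu : GenD K u) (hv : GenD K v) : GenD K (u + v) := by
  have h := genD_cv (up hu + up hv)
  exact h

lemma genD_smul {f : K} (hf : InFld K f) {u : Fin 3 → K} (hu : GenD K u) : GenD K (f • u) := by
  have h := genD_cv ((⟨f, hf⟩ : fld K) • up hu)
  exact h

lemma mk_mem (hINJ : SpecINJ) {δ : ℕ} (hδ : 3 ≤ δ) (hF : F.IsHomogeneous δ) (hI : Irreducible F)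
    (hK : IsModel F K) (M : Matrix (Fin 3) (Fin 3) ℂ) : IsSection F K (mk M) := by
  obtain ⟨β, hβ, hβM⟩ := (hINJ F δ hδ hF hI K hK).1 M
  have key : ∀ {u v : Fin 3 → K} (hu : GenD K u) (hv : GenD K v),
      mk M u v = (β (up hu) (up hv) : K) := by
    intro u v hu hv
    rw [mk_pos M hu hv, hβM (up hu) (up hv)]
    rfl
  refine ⟨fun u v h => if_neg h, ?_, ?_, ?_, ?_, ?_⟩
  · intro u u' v hu hu' hv
    rw [mk_pos M (genD_add hu hu') hv, mk_pos M hu hv, mk_pos M hu' hv,
      ← Finset.sum_add_distrib]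
    refine Finset.sum_congr rfl fun i _ => ?_
    rw [← Finset.sum_add_distrib]
    refine Finset.sum_congr rfl fun j _ => ?_
    rw [Pi.add_apply]; ring
  · intro u v v' hu hv hv'
    rw [mk_pos M hu (genD_add hv hv'), mk_pos M hu hv, mk_pos M hu hv',
      ← Finset.sum_add_distrib]
    refine Finset.sum_congr rfl fun i _ => ?_
    rw [← Finset.sum_add_distrib]
    refine Finset.sum_congr rfl fun j _ => ?_
    rw [Pi.add_apply]; ring
  · intro f g u v hf hg hu hv
    rw [mk_pos M (genD_smul hf hu) (genD_smul hg hv), mk_pos M hu hv, Finset.mul_sum]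
    refine Finset.sum_congr rfl fun i _ => ?_
    rw [Finset.mul_sum]
    refine Finset.sum_congr rfl fun j _ => ?_
    rw [Pi.smul_apply, Pi.smul_apply, smul_eq_mul, smul_eq_mul]; ring
  · intro u v
    by_cases h : GenD K u ∧ GenD K v
    · rw [key h.1 h.2]
      exact (β (up h.1) (up h.2)).2
    · rw [mk, if_neg h]
      exact inFld_zero'
  · intro p hp hFp u v hu hv hu' hv'
    rw [key hu hv]
    exact hβ p hp hFp (up hu) (up hv) hu' hv'

/-- the bilinear form of a section -/
noncomputable def bil {β : (Fin 3 → K) → (Fin 3 → K) → K} (h : IsSection F K β) :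
    DK K →ₗ[fld K] DK K →ₗ[fld K] fld K :=
  LinearMap.mk₂ (fld K) (fun u v => (⟨β (cv u) (cv v), h.val _ _⟩ : fld K))
    (fun u u' v => Subtype.ext (h.add_left _ _ _ (genD_cv u) (genD_cv u') (genD_cv v)))
    (fun c u v => by
      refine Subtype.ext ?_
      have h1 := h.smul c 1 (cv u) (cv v) c.2 (one_mem (fld K)) (genD_cv u) (genD_cv v)
      rw [one_smul, mul_one] at h1
      exact h1)
    (fun u v v' => Subtype.ext (h.add_right _ _ _ (genD_cv u) (genD_cv v) (genD_cv v')))
    (fun c u v => by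
      refine Subtype.ext ?_
      have h1 := h.smul 1 c (cv u) (cv v) (one_mem (fld K)) c.2 (genD_cv u) (genD_cv v)
      rw [one_smul, one_mul] at h1
      exact h1)

lemma bil_mem {β : (Fin 3 → K) → (Fin 3 → K) → K} (h : IsSection F K β) :
    bil h ∈ H0EE F K := by
  intro p hp hF u v hu hv
  exact h.reg p hp hF (cv u) (cv v) (genD_cv u) (genD_cv v) hu hv

end Fin2M

open Fin2M in
/-- the theorem -/
theorem finThm2 (F : R) (δ : ℕ) (hδ : 4 ≤ δ) (hF : IsSmoothCurve F δ) (K : Type) [Field K]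
    [Algebra ℂ K] [Algebra R K] [IsScalarTower ℂ R K] (hK : IsModel F K) :
    (∀ f : K, IsSec F K 1 f ↔ ∃ c : R, c.IsHomogeneous 1 ∧ algebraMap R K c = f) ∧
    Module.finrank ℂ (Sections F K) = 9 := by
  have hINJ := specINJ
  have hm := fun M => mk_mem (K := K) hINJ (δ := δ) (by omega) hF.hom hF.irr hK M
  refine ⟨fun f => ⟨fun hf => specPN F δ hF.hom hF.irr K hK 1 f hf, ?_⟩, ?_⟩
  · rintro ⟨c, hc, rfl⟩ p _ _
    exact ⟨0, c, 1, by simpa using hc, isHomogeneous_one _ _, by simp, by simp⟩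
  · have hlin1 : ∀ M M' : Matrix (Fin 3) (Fin 3) ℂ,
        (mk (M + M') : (Fin 3 → K) → (Fin 3 → K) → K) = mk M + mk M' := by
      intro M M'
      funext u v
      by_cases h : GenD K u ∧ GenD K v
      · rw [Pi.add_apply, Pi.add_apply, mk_pos _ h.1 h.2, mk_pos _ h.1 h.2, mk_pos _ h.1 h.2,
          ← Finset.sum_add_distrib]
        refine Finset.sum_congr rfl fun i _ => ?_
        rw [← Finset.sum_add_distrib]
        refine Finset.sum_congr rfl fun j _ => ?_
        rw [Matrix.add_apply, map_add]; ring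
      · rw [Pi.add_apply, Pi.add_apply, mk, mk, mk, if_neg h, if_neg h, if_neg h, add_zero]
    have hlin2 : ∀ (c : ℂ) (M : Matrix (Fin 3) (Fin 3) ℂ),
        (mk (c • M) : (Fin 3 → K) → (Fin 3 → K) → K) = c • mk M := by
      intro c M
      funext u v
      by_cases h : GenD K u ∧ GenD K v
      · rw [Pi.smul_apply, Pi.smul_apply, mk_pos _ h.1 h.2, mk_pos _ h.1 h.2, Finset.smul_sum]
        refine Finset.sum_congr rfl fun i _ => ?_
        rw [Finset.smul_sum]
        refine Finset.sum_congr rfl fun j _ => ?_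
        rw [Matrix.smul_apply, smul_eq_mul, map_mul, Algebra.smul_def c (_ * _ * _)]; ring
      · rw [Pi.smul_apply, Pi.smul_apply, mk, mk, if_neg h, if_neg h, smul_zero]
    let Φ : Matrix (Fin 3) (Fin 3) ℂ →ₗ[ℂ] Sections F K :=
      { toFun := fun M => ⟨mk M, hm M⟩
        map_add' := fun M M' => Subtype.ext (hlin1 M M')
        map_smul' := fun c M => Subtype.ext (hlin2 c M) }
    have hinj : Function.Injective Φ := by
      intro M M' h
      have h1 : (mk M : (Fin 3 → K) → (Fin 3 → K) → K) = mk M' := congrArg Subtype.val h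
      have h2 := (hINJ F δ (by omega) hF.hom hF.irr K hK).2 (M - M') (by
        intro u v
        have e1 := congrFun (congrFun h1 (cv u)) (cv v)
        rw [mk_pos _ (genD_cv u) (genD_cv v), mk_pos _ (genD_cv u) (genD_cv v),
          ← sub_eq_zero, ← Finset.sum_sub_distrib] at e1
        have e2 : (((0 : DK K →ₗ[fld K] DK K →ₗ[fld K] fld K) u v : fld K) : K) = 0 := rfl
        rw [e2, ← e1]
        refine Finset.sum_congr rfl fun i _ => ?_
        rw [← Finset.sum_sub_distrib]
        refine Finset.sum_congr rfl fun j _ => ?_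
        rw [Matrix.sub_apply, map_sub]
        show cv u i * _ * cv v j - cv u i * _ * cv v j = cv u i * _ * cv v j
        ring)
      exact sub_eq_zero.1 h2
    have hsurj : Function.Surjective Φ := by
      rintro ⟨β, hβ⟩
      obtain ⟨M, hM⟩ := specSUR specPN specKOS F δ hδ hF.hom hF.irr K hK (bil hβ) (bil_mem hβ)
      refine ⟨M, Subtype.ext ?_⟩
      funext u v
      show mk M u v = β u v
      by_cases h : GenD K u ∧ GenD K v
      · rw [mk_pos _ h.1 h.2]
        exact (hM (up h.1) (up h.2)).symm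
      · rw [mk, if_neg h, hβ.zero u v h]
    rw [← (LinearEquiv.ofBijective Φ ⟨hinj, hsurj⟩).finrank_eq, Module.finrank_matrix]
    simp

end Pool.Agent.Lib.MP_478959_ag
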