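import Pool.Agent.Lib.MP_478959_ag.Defs

/-!
# MP_478959_ag: modules

THEOREM.  For every smooth plane curve of degree `≥ 4`, `h⁰(E_H ⊗ E_H) = 9`.  So no smooth plane
septic has `Cliff₃ = 8/3` (known: `Cliff₃ = 8/3` iff `h⁰(E_H ⊗ E_H) ≥ 10`).
-/

set_option autoImplicit false

namespace Pool.Agent.Lib.MP_478959_ag

open MvPolynomial

/-- the Koszul matrix -/
noncomputable def kz : Matrix (Fin 3) (Fin 3) R :=
  !![0, X 2, -X 1; -X 2, 0, X 0; X 1, -X 0, 0]

/-- **PN** (global sections of `𝒪_C(k)` on a plane curve are polynomials).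

Proof.  `A = R/(F) ⊆ K`.  Let `I = {h ∈ R : h f ∈ A}`, an ideal containing `F`.  It has no zero
`p ≠ 0`: if `F(p) ≠ 0` because `F ∈ I`, and if `F(p) = 0` because some `b ∈ I` has `b(p) ≠ 0`
(`IsSec`).  By the Nullstellensatz (`MvPolynomial.vanishingIdeal_zeroLocus_eq_radical`) all `X_i`
are in the radical of `I`: `X_i^N ∈ I`, and so `l^(3N) ∈ I` for every linear form `l`.
Choose a point `q ≠ 0` with `F(q) ≠ 0` and linear forms `l₀, l₁, l₂`, a basis, with
`l₀(q) = l₁(q) = 0`: after the linear change of coordinates (an automorphism of `R` preserving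
degrees; replace the structure map `R → K` by the composite), `F = c X₂^δ + …` is, up to a constant,
monic in `X₂`.  So `A` is a free module over `B = ℂ[X₀, X₁]` with basis `1, X₂, …, X₂^(δ-1)`
(division with remainder), `f` is in the fraction field of `A` (or: `g f ∈ A` with
`g = X₀^(3N)`), so `X₀^M f = ∑ b_j X₂^j`, `X₁^M f = ∑ c_j X₂^j` in `A`, and comparing
coefficients of `X₁^M (X₀^M f) = X₀^M (X₁^M f)`: `X₁^M b_j = X₀^M c_j` in `B`, so `X₀^M ∣ b_j`,
`f = ∑ (b_j/X₀^M) X₂^j ∈ A`.  So `f` is the class of a polynomial `c`; its homogeneous part of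
degree `k` also represents `f`: from `f b = a` at one point `p` with `b(p) ≠ 0`, `F ∣ c b - a`, `F`
homogeneous, so `F` divides the component of degree `n + k`, which is `c_k b - a`.  (There is a point
`p ≠ 0` with `F(p) = 0`.)  Hence `(f - c_k) b = 0` and `b ≠ 0` in `K` (else `F ∣ b`,
`b(p) = 0`). -/
def SpecPN : Prop :=
  ∀ (F : R) (δ : ℕ), F.IsHomogeneous δ → Irreducible F → ∀ (K : Type) [Field K] [Algebra ℂ K]
    [Algebra R K] [IsScalarTower ℂ R K], IsModel F K → ∀ (k : ℕ) (f : K), IsSec F K k f →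
    ∃ c : R, c.IsHomogeneous k ∧ algebraMap R K c = f

/-- **KOS** (Koszul).

Proof.  Koszul exactness in degree 1: if `∑ X_i b_i = 0` with `b_i` homogeneous of degree `e + 1`
then there are `c_i`, homogeneous of degree `e`, with `b_i = ∑_a kz i a c_a` (from
`X₂ ∣ X₀ b₀ + X₁ b₁`, i.e. modulo `X₂`: `b₀ ≡ X₁ s`, `b₁ ≡ -X₀ s`, …).  Apply it to the columns of
`B`: `B = kz * c`, `c` a matrix of linear forms.  Then `0 = B x = kz (c x)`, `x = (X₀, X₁, X₂)`, so the
vector `c x` of quadratic forms satisfies `kz (c x) = 0`, hence `c x = q x` with a linear form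
`q = ∑ λ_j X_j` (`X₂ (cx)_0 = X₀ (cx)_2` etc., unique factorization).  Replace column `j` of `c` by
`c_{·j} - λ_j x`: `B = kz * c` is unchanged as `kz x = 0`, and now `c x = 0`.  Each row of `c`
consists of linear forms with `∑_j c_{ij} X_j = 0`, so by the first step it is `M_i kzᵀ` with constants:
`c = M kzᵀ`. -/
def SpecKOS : Prop :=
  ∀ B : Matrix (Fin 3) (Fin 3) R, (∀ i j, (B i j).IsHomogeneous 2) →
    (∀ j, ∑ i, X i * B i j = 0) → (∀ i, ∑ j, B i j * X j = 0) →
    ∃ M : Matrix (Fin 3) (Fin 3) ℂ, B = kz * M.map C * kz.transpose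

/-- the bilinear form of a constant matrix takes the value `∑ u_i M_ij v_j` -/
def IsForm (K : Type) [Field K] [Algebra ℂ K] [Algebra R K] [IsScalarTower ℂ R K]
    (M : Matrix (Fin 3) (Fin 3) ℂ) (β : DK K →ₗ[fld K] DK K →ₗ[fld K] fld K) : Prop :=
  ∀ u v : DK K, (β u v : K) =
    ∑ i, ∑ j, ((u : Fin 3 → fld K) i : K) * algebraMap ℂ K (M i j) * ((v : Fin 3 → fld K) j : K)

/-- **SUR** (every section is given by a constant matrix).

Proof (uses PN, KOS).  At least one `X_l` is not zero in `K`; for such `l` let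
`κ_i^l = (row i of kz)/X_l ∈ DK K`.  For two such `l, l'`: `κ_i^{l'} = (X_l/X_{l'}) κ_i^l`.  Let
`β ∈ H0EE`.  `B_ij := X_l² β(κ_i^l, κ_j^l) ∈ K` does not depend on `l` (bilinearity over `fld K`).
For `p ∈ C` there is `l` with `p_l ≠ 0`; then `X_l ≠ 0` in `K` (else `F ∣ X_l`, `F(p) ≠ 0`…: `F`
would be a multiple of `X_l`, of degree `≤ 1 < δ`), `κ_i^l` is regular at `p`, so
`β(κ_i^l, κ_j^l)` is, and `B_ij` is regular at `p` as a section of `𝒪(2)`.  By PN `B_ij` is the class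
of a quadratic form `b_ij ∈ R`.  `∑ X_i κ_i^l = 0`, so `∑_i X_i B_ij = 0` in `K`,
i.e. `F ∣ ∑_i X_i b_ij`, a form of degree `3 < δ`, so `∑_i X_i b_ij = 0`; similarly
`∑_j b_ij X_j = 0`.  KOS: `b = kz M kzᵀ`, so `β(κ_i^l, κ_j^l) = ∑_{a,b} (κ_i^l)_a M_ab (κ_j^l)_b`.
The `κ_i^l` span `DK K` over `fld K` (if `∑ u_i X_i = 0` and `X_l ≠ 0`, then `u` is the combination of
the two `κ_j^l`, `j ≠ l`, with coefficients `± u`…: for `l = 2`,
`(u₀, u₁, u₂) = -u₁' κ…`; explicitly `u = ∑` since `u_l = -(∑_{i≠l} u_i X_i)/X_l`).  By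
bilinearity `β` is the form of `M`. -/
def SpecSUR : Prop :=
  ∀ (F : R) (δ : ℕ), 4 ≤ δ → F.IsHomogeneous δ → Irreducible F → ∀ (K : Type) [Field K]
    [Algebra ℂ K] [Algebra R K] [IsScalarTower ℂ R K], IsModel F K →
    ∀ β ∈ H0EE F K, ∃ M : Matrix (Fin 3) (Fin 3) ℂ, IsForm K M β

/-- **INJ** (constant matrices give sections, and different ones give different sections).

Proof.  Existence and membership: the formula defines a `fld K`-bilinear form (values in `fld K` as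
constants are in `fld K`), and `RegAt` in degree `0` is closed under sums and products.
Injectivity: let `∑ u_i M_ij v_j = 0` for all `u, v ∈ DK K`.  Then `kz M kzᵀ = 0` in `K`
(multiply `κ_i^l, κ_j^l` by `X_l`), so all its entries, quadratic forms, are divisible by `F`, of
degree `≥ 3`: `kz M kzᵀ = 0` in `R`, and comparing coefficients of the entries gives `M = 0` (the
entry `(i, i)` gives all `M_ab` with `a, b ≠ i`, up to the symmetric part, and the entries `(i, j)`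
the rest: e.g. `(0,0)`: `M₁₁ X₂² - (M₁₂ + M₂₁) X₁ X₂ + M₂₂ X₁²`,
`(0,1)`: `-M₁₀ X₂² + M₁₂ X₀ X₂ + M₂₀ X₁ X₂ - M₂₂ X₀ X₁`). -/
def SpecINJ : Prop :=
  ∀ (F : R) (δ : ℕ), 3 ≤ δ → F.IsHomogeneous δ → Irreducible F → ∀ (K : Type) [Field K]
    [Algebra ℂ K] [Algebra R K] [IsScalarTower ℂ R K], IsModel F K →
    (∀ M : Matrix (Fin 3) (Fin 3) ℂ, ∃ β ∈ H0EE F K, IsForm K M β) ∧
    ∀ M : Matrix (Fin 3) (Fin 3) ℂ, IsForm K M 0 → M = 0

/-- the theorem -/
def SpecFIN : Prop :=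
  ∀ (F : R) (δ : ℕ), 4 ≤ δ → IsSmoothCurve F δ → ∀ (K : Type) [Field K]
    [Algebra ℂ K] [Algebra R K] [IsScalarTower ℂ R K], IsModel F K →
    (∀ f : K, IsSec F K 1 f ↔ ∃ c : R, c.IsHomogeneous 1 ∧ algebraMap R K c = f) ∧
    Module.finrank ℂ (H0EE F K) = 9

end Pool.Agent.Lib.MP_478959_ag
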